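import Mathlib

/-!
# Squad GNI (MP_094b6b_co): maximum cuts, girth 9 (exponent 14/15) and girth 11 (exponent 18/19)

The polarity graph of the Ree - Tits hexagon in function form: `q = 3 ^ (2k+1)`, `σ x = x ^ (3 ^ (k+1))`,
vertices `(a, b, c, d, e)`, edges `b' + c = σ a * a'`, `b + c' = a * σ a'`, `d' + e = σ a * a' ^ 2`,
`d + e' = a ^ 2 * σ a'`. It has no closed non-backtracking walks of length 4, 6, 8, 10, hence no
cycles of length 3, 4, 5, 6, 8, 10, at most `n q ^ 2` cycles of length 7 and `n q ^ 4` of length 9.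
All cuts are small (`NrmStmt`). A random subgraph with edge density `1 / K` is cleaned from its few
7-cycles (9-cycles).
-/

set_option autoImplicit false

namespace Pool.Agent.G9

open Finset

/-- Vertices `(a, b, c, d, e)`. -/
abbrev V9 (F : Type) := F × F × F × F × F

/-- The (symmetric) incidence relation. -/
def Inc {F : Type} [Field F] (σ : F ≃+* F) (u v : V9 F) : Prop :=
  v.2.1 + u.2.2.1 = σ u.1 * v.1 ∧ u.2.1 + v.2.2.1 = u.1 * σ v.1 ∧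
    v.2.2.2.1 + u.2.2.2.2 = σ u.1 * v.1 ^ 2 ∧ u.2.2.2.1 + v.2.2.2.2 = u.1 ^ 2 * σ v.1

theorem Inc.symm {F : Type} [Field F] {σ : F ≃+* F} {u v : V9 F} (h : Inc σ u v) : Inc σ v u :=
  ⟨by rw [h.2.1]; ring, by rw [h.1]; ring, by rw [h.2.2.2]; ring, by rw [h.2.2.1]; ring⟩

/-- The polarity graph. -/
def gr9 {F : Type} [Field F] (σ : F ≃+* F) : SimpleGraph (V9 F) where
  Adj u v := u ≠ v ∧ Inc σ u v
  symm := ⟨fun _ _ h => ⟨h.1.symm, h.2.symm⟩⟩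
  loopless := ⟨fun _ h => h.1 rfl⟩

/-- No closed non-backtracking walks of length 4, 6, 8, 10. -/
def NoEven {V : Type} (G : SimpleGraph V) : Prop :=
  ∀ k : ℕ, 2 ≤ k → k ≤ 5 → ∀ v : ℕ → V, (∀ i, v (i + 2 * k) = v i) →
    (∀ i, G.Adj (v i) (v (i + 1))) → (∀ i, v i ≠ v (i + 2)) → False

/-- Cycles of length `l` as injective maps from `ZMod l`. -/
def CycT (l : ℕ) {V : Type} (G : SimpleGraph V) : Set (ZMod l → V) :=
  {v | Function.Injective v ∧ ∀ i, G.Adj (v i) (v (i + 1))}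

/-- No cycles shorter than `r`. -/
def Short (r : ℕ) {V : Type} (G : SimpleGraph V) : Prop :=
  ∀ l, 3 ≤ l → l < r → CycT l G = ∅

/-- There is a graph with `m` edges, no cycles shorter than `r`, all cuts at most `m / 2 + K`. -/
def GoodG (r m : ℕ) (K : ℝ) : Prop :=
  ∃ (V : Type) (_ : Fintype V) (G : SimpleGraph V), {q : V × V | G.Adj q.1 q.2}.ncard = 2 * m ∧
    Short r G ∧ ∀ S : Set V,
      (({q : V × V | q.1 ∈ S ∧ q.2 ∉ S ∧ G.Adj q.1 q.2}.ncard : ℕ) : ℝ) ≤ m / 2 + K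

/-- GAU (medium). Gauss sums. PROOF. `A y ^ 2 + L y = A (y - L / A) ^ 2 - L ^ 2 / A` because `-2 = 1`
in `F`. So the sum is `ψ (-(L ^ 2 / A)) * ∑ y, ψ (A y ^ 2)`, and `∑ y, ψ (A y ^ 2) =
∑ a, (1 + χ a) ψ (A a) = ∑ a, χ a ψ (A a) = χ A * ∑ a, χ a ψ a` (`quadraticChar_card_sqrts`, `χ` the
quadratic character, `∑ a, ψ (A a) = 0` as `ψ` is nontrivial, substitution `a -> a / A`).
`G = ∑ a, χ a ψ a = ∑ y, ψ (y ^ 2)`, `‖G‖ ^ 2 = ∑ y z, ψ (y ^ 2 - z ^ 2) = ∑ u v, ψ (u v) = q`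
(`(y, z) -> (y - z, y + z)` is a bijection), or Mathlib's `gaussSum_mul_gaussSum_eq_card`. -/
def GauStmt : Prop :=
  ∀ (F : Type) [Field F] [Fintype F] [DecidableEq F] [CharP F 3] (ψ : AddChar F ℂ), ψ ≠ 1 →
    ∃ G : ℂ, ‖G‖ ^ 2 = Fintype.card F ∧ ∀ A L : F, A ≠ 0 →
      ∑ y, ψ (A * y ^ 2 + L * y) = ((quadraticChar F A : ℤ) : ℂ) * G * ψ (-(L ^ 2 / A))

/-- CNV (medium, uses GAU). PROOF. `-1` is not a square as `q % 4 = 3`, so `κ = -η l ^ 2` with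
`η = 1` or `η = -1` (one of `-κ`, `κ` is a square). By GAU with `A = η w`, `L = l`:
`χ w * ψ (κ / w) = (χ η G)⁻¹ ∑ t, ψ (η w t ^ 2 + l t)` for `w ≠ 0`, and for `w = 0` the right side is
`(χ η G)⁻¹ * (q if l = 0, else 0)`. With `w = x - y`: the double sum is `(χ η G)⁻¹` times
`∑ t, ψ (l t) (∑ x, ψ (η t ^ 2 x) f x) (∑ y, ψ (-η t ^ 2 y) g y) - [l = 0] q ∑ x, f x g x`. Every value
`t ^ 2` is taken at most twice and `∑ s, ‖∑ x, ψ (s x) f x‖ ^ 2 = q ∑ ‖f‖ ^ 2`, so Cauchy - Schwarz gives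
`≤ q ^ (-1/2) (2 q ‖f‖ ‖g‖ + q ‖f‖ ‖g‖)`. -/
def CnvStmt : Prop :=
  ∀ (F : Type) [Field F] [Fintype F] [DecidableEq F] [CharP F 3] (ψ : AddChar F ℂ), ψ ≠ 1 →
    Fintype.card F % 4 = 3 → ∀ (κ : F) (f g : F → ℂ),
    ‖∑ x, ∑ y, ((quadraticChar F (x - y) : ℤ) : ℂ) * ψ (κ / (x - y)) * (f x * g y)‖ ≤
      3 * Real.sqrt (Fintype.card F) *
        (Real.sqrt (∑ x, ‖f x‖ ^ 2) * Real.sqrt (∑ y, ‖g y‖ ^ 2))

/-- KER (medium, uses CNV). PROOF. `ε = 0`: CNV with `κ γ ^ 2`. `ε ≠ 0`: put `x = X + γ / ε`,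
`y = Y + γ / ε`; as `2 = -1`, `γ + ε (x + y) = ε (X + Y)`. With `κ' = κ ε ^ 2` and `4 = 1`:
`κ' (X + Y) ^ 2 / (X - Y) = κ' (X - Y) + κ' X Y / (X - Y)`, so the factors `ψ (κ' X)`, `ψ (-κ' Y)` go into
`f`, `g`. For `X, Y ≠ 0`, `U = 1 / X`, `W = 1 / Y`: `X Y / (X - Y) = -1 / (U - W)` and
`χ (X - Y) = χ X χ Y χ (-1) χ (U - W)`: CNV with `-κ'` and the functions of `U`, `W` (zero at `0`).
The terms with `X = 0` or `Y = 0` are at most `sqrt q ‖f‖ ‖g‖` each (`|χ|, |ψ| ≤ 1`,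
`∑ |g| ≤ sqrt q ‖g‖`). -/
def KerStmt : Prop :=
  ∀ (F : Type) [Field F] [Fintype F] [DecidableEq F] [CharP F 3] (ψ : AddChar F ℂ), ψ ≠ 1 →
    Fintype.card F % 4 = 3 → ∀ (κ γ ε : F) (f g : F → ℂ),
    ‖∑ x, ∑ y, ((quadraticChar F (x - y) : ℤ) : ℂ) * ψ (κ * (γ + ε * (x + y)) ^ 2 / (x - y)) *
        (f x * g y)‖ ≤
      5 * Real.sqrt (Fintype.card F) *
        (Real.sqrt (∑ x, ‖f x‖ ^ 2) * Real.sqrt (∑ y, ‖g y‖ ^ 2))

/-- NRD (medium-strong, uses GAU KER). PROOF. By Cauchy - Schwarz in `y` the left side is at most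
`(∑ ‖g‖ ^ 2) * ∑ x x', f x conj (f x') M x x'`, `M x x' = ∑ y, ψ (δ σ D y ^ 2 + L y)`, `D = x - x'`,
`L = β σ D + τ (γ D + ε (x ^ 2 - x' ^ 2))`, `τ = σ.symm` (from `ψ (c σ y) = ψ (σ (τ c * y)) = ψ (τ c * y)`).
`D = 0`: `M = q`. `D ≠ 0`: GAU gives `M = χ (δ σ D) G ψ (-L ^ 2 / (δ σ D))`. As
`σ D = τ (D ^ 3)` (`σ (σ D) = D ^ 3`), with `R = γ D + ε (x ^ 2 - x' ^ 2) = D (γ + ε (x + x'))`:
`L ^ 2 / (δ σ D) = (β ^ 2 / δ) σ D + (2 β / δ) τ R + (1 / δ) τ ((γ + ε (x + x')) ^ 2 / D)`.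
The first two terms are `φ x - φ x'` and go into `f`; `ψ (-(1 / δ) τ z) = ψ (κ z)` with `κ = -σ (1 / δ)`;
`χ (σ D) = χ D`. So the off-diagonal part is `χ δ * G *` (the sum of KER for `F = f u`, `conj F`), at
most `sqrt q * 5 sqrt q ∑ ‖f‖ ^ 2` (the terms `D = 0` of KER vanish as `χ 0 = 0`). Total
`(q + 5 q) ∑ ‖f‖ ^ 2`. -/
def NrdStmt : Prop :=
  ∀ (F : Type) [Field F] [Fintype F] [DecidableEq F] [CharP F 3] (σ : F ≃+* F) (ψ : AddChar F ℂ),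
    (∀ x, σ (σ x) = x ^ 3) → ψ ≠ 1 → (∀ x, ψ (σ x) = ψ x) → Fintype.card F % 4 = 3 →
    ∀ (β γ δ ε : F), δ ≠ 0 → ∀ f g : F → ℂ,
    ‖∑ x, ∑ y, ψ (β * (σ x * y) + γ * (x * σ y) + δ * (σ x * y ^ 2) + ε * (x ^ 2 * σ y)) *
        (f x * g y)‖ ^ 2 ≤
      16 * Fintype.card F * ((∑ x, ‖f x‖ ^ 2) * (∑ y, ‖g y‖ ^ 2))

/-- NRB (medium). PROOF. Cauchy - Schwarz in `y`: at most `(∑ ‖g‖ ^ 2) ∑ x x', f x conj (f x') M x x'`,
`M x x' = ∑ y, ψ ((β σ D + τ (γ D)) y)`, `D = x - x'`, `τ = σ.symm`: it is `q` if `β σ D + τ (γ D) = 0`,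
else `0`. Applying `σ`: `σ β * D ^ 3 + γ * D = 0`, at most 3 solutions `D`. For every `D`
`∑ x, ‖f x‖ ‖f (x - D)‖ ≤ ∑ ‖f‖ ^ 2`. Total `≤ 3 q ∑ ‖f‖ ^ 2 ∑ ‖g‖ ^ 2`. -/
def NrbStmt : Prop :=
  ∀ (F : Type) [Field F] [Fintype F] [DecidableEq F] [CharP F 3] (σ : F ≃+* F) (ψ : AddChar F ℂ),
    (∀ x, σ (σ x) = x ^ 3) → ψ ≠ 1 → (∀ x, ψ (σ x) = ψ x) →
    ∀ (β γ : F), (β ≠ 0 ∨ γ ≠ 0) → ∀ f g : F → ℂ,
    ‖∑ x, ∑ y, ψ (β * (σ x * y) + γ * (x * σ y)) * (f x * g y)‖ ^ 2 ≤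
      16 * Fintype.card F * ((∑ x, ‖f x‖ ^ 2) * (∑ y, ‖g y‖ ^ 2))

/-- NRM (easy, uses NRD NRB). PROOF. `δ ≠ 0`: NRD. `δ = 0`, `ε ≠ 0`: NRD with `x`, `y` and `f`, `g`
exchanged (`β`, `γ` and `δ`, `ε` exchanged). `δ = ε = 0`: NRB. -/
def NrmStmt : Prop :=
  ∀ (F : Type) [Field F] [Fintype F] [DecidableEq F] [CharP F 3] (σ : F ≃+* F) (ψ : AddChar F ℂ),
    (∀ x, σ (σ x) = x ^ 3) → ψ ≠ 1 → (∀ x, ψ (σ x) = ψ x) → Fintype.card F % 4 = 3 →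
    ∀ (β γ δ ε : F), ¬ (β = 0 ∧ γ = 0 ∧ δ = 0 ∧ ε = 0) → ∀ f g : F → ℂ,
    ‖∑ x, ∑ y, ψ (β * (σ x * y) + γ * (x * σ y) + δ * (σ x * y ^ 2) + ε * (x ^ 2 * σ y)) *
        (f x * g y)‖ ^ 2 ≤
      16 * Fintype.card F * ((∑ x, ‖f x‖ ^ 2) * (∑ y, ‖g y‖ ^ 2))

/-- LOW (medium-strong, uses NRM; compare Helper98_G8/Cut.lean, Helper49_G7/Four.lean, which do this
for real characters). PROOF. `ψ = ζ ^ Tr` (`AddChar` of `ZMod 3` composed with `Algebra.trace (ZMod 3) F`)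
is nontrivial and `ψ (σ x) = ψ x` (`σ` is a `ZMod 3`-algebra automorphism). `W = F ^ 4`,
`P β w = ψ (∑ β_i w_i)`, `sw (b, c, d, e) = (c, b, e, d)`, `S a a' = (σ a a', a σ a', σ a a' ^ 2, a ^ 2 σ a')`.
`Inc (a, w) (a', w')` iff `w' + sw w = S a a'`. By `∑ β, P β z = q ^ 4 [z = 0]` the sum is
`q ^ (-4) ∑ β, ∑ a a', H a (sw β) * H a' β * P β (-S a a')` with `H a β = ∑ w, x (a, w) P β w`
(`∑ w, x (a, w) P β (sw w) = H a (sw β)`). `β = 0`: `(∑ x) ^ 2 ≥ 0`. `β ≠ 0`: by NRM the inner sum has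
norm at most `4 sqrt q * ‖H · (sw β)‖ * ‖H · β‖ ≤ 2 sqrt q (‖H · (sw β)‖ ^ 2 + ‖H · β‖ ^ 2)`. Parseval:
`∑ β, ∑ a, ‖H a β‖ ^ 2 = q ^ 4 * ∑ x ^ 2 = q ^ 4 * q ^ 5`. -/
def LowStmt : Prop :=
  ∀ (F : Type) [Field F] [Fintype F] [DecidableEq F] [CharP F 3] (σ : F ≃+* F),
    (∀ x, σ (σ x) = x ^ 3) → Fintype.card F % 4 = 3 →
    ∀ x : V9 F → ℝ, (∀ v, x v = 1 ∨ x v = -1) → ∀ [DecidableRel (Inc σ)],
    -(4 * Real.sqrt (Fintype.card F) * (Fintype.card F : ℝ) ^ 5) ≤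
      ∑ u, ∑ v, (if Inc σ u v then x u * x v else 0)

/-- EVN (medium). PROOF. `v` has period `2 k`, `X i = (v (2 i)).1`, `Y i = (v (2 i + 1)).1`. Two
neighbours of a vertex with the same first coordinate are equal, so `X i ≠ X (i+1)`, `Y i ≠ Y (i+1)`.
Subtracting the equations of the edges `(v (2i), v (2i+1))` and `(v (2i+1), v (2i+2))` and summing over
a period: `∑ (σ X_i - σ X_(i+1)) Y_i = 0`, `∑ (X_i - X_(i+1)) σ Y_i = 0`,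
`∑ (σ X_i - σ X_(i+1)) Y_i ^ 2 = 0`, `∑ (X_i ^ 2 - X_(i+1) ^ 2) σ Y_i = 0`. Apply `σ` to the second and
the fourth. With `a_i = σ X_i`, `t_i = a_i - a_(i+1) ≠ 0`, `x_i = Y_i`: `∑ t_i = ∑ t_i x_i = ∑ t_i x_i ^ 2 =
∑ t_i x_i ^ 3 = 0` and `∑ (a_i ^ 2 - a_(i+1) ^ 2) x_i ^ 3 = 0`. `k = 2, 3`: `∑ t_i (x_i - x_2) (x_i - x_3) = 0`
gives `t_1 = 0`. `k = 4`: `t_1 (x_1 - x_2) (x_1 - x_3) (x_1 - x_4) = 0` so `x_1 = x_3`, also `x_2 = x_4`,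
`t_3 = -t_1`, `t_4 = -t_2`, and the last sum is `± 2 t_1 t_2 (x_1 - x_2) ^ 3`. `k = 5`: if `x_1 = x_3` then
`t_2 (x_2 - x_1) (x_2 - x_4) (x_2 - x_5) = 0`, so `x_2 = x_4` (then `t_5 (x_5 - x_1) (x_5 - x_2) = 0`,
contradiction) or `x_2 = x_5` (then `t_4 (x_4 - x_1) (x_4 - x_2) = 0`, contradiction); so all `x_i` are
different and (char 3, `∑ t_i = 0`, `∑ t_i x_i ^ 3 = 0`) the last sum is `± ∑_(i<j) t_i t_j (x_i - x_j) ^ 3`,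
which is not zero by `Pool.Agent.MC.H74.pent_identity` (see `word5_dist`, `word5` in
Pool/Agent/Helper74_MC/Pent.lean, written over `ZMod p`; `pent_identity` is over any field). -/
def EvnStmt : Prop :=
  ∀ (F : Type) [Field F] [CharP F 3] (σ : F ≃+* F), (∀ x, σ (σ x) = x ^ 3) → NoEven (gr9 σ)

/-- EMP (easy-medium). PROOF. Lengths 4, 6, 8, 10: the periodic extension of the cycle contradicts
`NoEven` (`v i ≠ v (i + 2)` by injectivity). Lengths 3, 5: go around twice (closed walk of length 6,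
10). -/
def EmpStmt : Prop :=
  ∀ (V : Type) (G : SimpleGraph V), NoEven G →
    CycT 3 G = ∅ ∧ CycT 4 G = ∅ ∧ CycT 5 G = ∅ ∧ CycT 6 G = ∅ ∧ CycT 8 G = ∅ ∧ CycT 10 G = ∅

/-- CNT (medium). PROOF. Uniqueness of non-backtracking paths with `l ≤ 5` steps between two vertices,
by induction on `l`: two such paths `u 0 .. u l`, `v 0 .. v l` with the same ends; if `u 1 = v 1` or
`u (l-1) = v (l-1)` use the induction hypothesis; else `u` followed by the reverse of `v` is a closed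
non-backtracking walk of length `2 l`, which contradicts `NoEven` for `2 ≤ l`. A 7-cycle
is determined by `v 0, v 1, v 2` (the rest is a path with 5 steps from `v 2` to `v 0`): at most `n D ^ 2`;
a 9-cycle by `v 0, .., v 4`: at most `n D ^ 4`. -/
def CntStmt : Prop :=
  ∀ (V : Type) [Fintype V] [DecidableEq V] (G : SimpleGraph V) [DecidableRel G.Adj] (D : ℕ),
    NoEven G → (∀ v, G.degree v ≤ D) →
    (CycT 7 G).ncard ≤ Fintype.card V * D ^ 2 ∧ (CycT 9 G).ncard ≤ Fintype.card V * D ^ 4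

/-- GIR (medium). PROOF. `SimpleGraph.le_egirth`: a cycle `w` of length `l < r` gives the element
`i -> w.getVert i.val` of `CycT l G` (`IsCycle` : `3 ≤ l`, `getVert` injective on `0 .. l-1`). -/
def GirStmt : Prop :=
  ∀ (V : Type) (G : SimpleGraph V) (r : ℕ), Short r G → (r : ℕ∞) ≤ G.egirth

/-- RND (medium-strong). PROOF. Colour all elements of `Sym2 V` with `K` colours, uniformly over all
colourings; `A` = colour 0. Put `n = card V`, `D' = D / K ≥ 1`, `l = 1 / sqrt D' ≤ 1`, `m ≤ n D / 2` the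
number of edges of `G`. For `x` put `Z x = ∑ (e edge) ([e in A] - 1 / K) x_e`. Averages over the colourings
factor (`Finset.prod_univ_sum` / `Fintype.piFinset`): the average of `exp (-l Z x)` is
`∏_e ((1 - 1/K) exp (l x_e / K) + (1/K) exp (-l x_e (1 - 1/K))) ≤ exp (l ^ 2 m / K) ≤ exp (n / 2)`
(`exp s - 1 - s ≤ s ^ 2` for `|s| ≤ 1`, so every factor is at most `exp (l ^ 2 / K)`). So the average of
`Y = ∑_x exp (-l Z x)` is at most `2 ^ n exp (n / 2)`; the average of `∑_t [t ⊆ A] w t` is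
`∑_t w t / K ^ |t|`; the average number of ordered pairs in `A` is at most `n D / K`. Three nonnegative
quantities with averages `a, b, c`: at some colouring all are at most `3 a`, `3 b`, `3 c` (take
the sum of the quotients; drop a quantity with average 0). Then `-Z x ≤ sqrt D' (log 3 + n log 2 + n / 2)
≤ 3 n sqrt D'` for all `x`, and the ordered sums are twice the sums over edges. -/
def RndStmt : Prop :=
  ∀ (V : Type) [Fintype V] [DecidableEq V] [Nonempty V] (G : SimpleGraph V) [DecidableRel G.Adj]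
    (K : ℕ) (D : ℝ), 1 ≤ K → (K : ℝ) ≤ D → (∀ v, (G.degree v : ℝ) ≤ D) →
    ∀ w : Finset (Sym2 V) → ℝ, (∀ t, 0 ≤ w t) →
    ∃ A : Finset (Sym2 V),
      (∀ x : V → ℝ, (∀ v, x v = 1 ∨ x v = -1) →
        (∑ u, ∑ v, (if G.Adj u v then x u * x v else 0)) / K -
            6 * Fintype.card V * Real.sqrt (D / K) ≤
          ∑ u, ∑ v, (if G.Adj u v ∧ s(u, v) ∈ A then x u * x v else 0)) ∧
      ∑ t, (if t ⊆ A then w t else 0) ≤ 3 * ∑ t, w t / (K : ℝ) ^ t.card ∧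
      ∑ u, ∑ v, (if G.Adj u v ∧ s(u, v) ∈ A then (1 : ℝ) else 0) ≤ 3 * (Fintype.card V * D / K)

/-- CUT (easy, copy of the end of `cut_le8` in Helper98_G8/Cut.lean). PROOF. `x = 1` on `S`, `-1`
outside: `∑ u v, [Adj] (1 - x u x v) = 4 * (number of pairs u ∈ S, v ∉ S, Adj)`. -/
def CutStmt : Prop :=
  ∀ (V : Type) [Fintype V] (G : SimpleGraph V) [DecidableRel G.Adj] (m : ℕ) (B : ℝ),
    {q : V × V | G.Adj q.1 q.2}.ncard = 2 * m →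
    (∀ x : V → ℝ, (∀ v, x v = 1 ∨ x v = -1) →
      -B ≤ ∑ u, ∑ v, (if G.Adj u v then x u * x v else 0)) →
    ∀ S : Set V,
      (({q : V × V | q.1 ∈ S ∧ q.2 ∉ S ∧ G.Adj q.1 q.2}.ncard : ℕ) : ℝ) ≤ m / 2 + B / 4

/-- ALM (easy-medium, copy of `sum_noSeven` .. `all8` in Helper98_G8/All.lean with `GoodG r` for
`Good8`; a cycle of the disjoint union lies on one side). -/
def AlmStmt : Prop :=
  ∀ (r : ℕ) (θ δ C : ℝ) (m0 : ℕ), 0 < θ → 0 < δ → δ < 1 → 0 < C →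
    (∀ m : ℕ, m0 ≤ m → ∃ e : ℕ, 0 < e ∧ e ≤ m ∧ δ * m ≤ e ∧ GoodG r e (C * (m : ℝ) ^ θ)) →
    ∃ c' : ℝ, 0 < c' ∧ ∀ m : ℕ, GoodG r m (c' * (m : ℝ) ^ θ)

/-- FIN (easy-medium, uses GIR; copy of `fin8` in Helper98_G8/All.lean). -/
def FinStmt : Prop :=
  ∀ (r m : ℕ) (K : ℝ), GoodG r m K →
    ∃ (n : ℕ) (G : SimpleGraph (Fin n)), G.edgeSet.ncard = m ∧ (r : ℕ∞) ≤ G.egirth ∧
      ∀ S : Set (Fin n),
        (({q : Fin n × Fin n | q.1 ∈ S ∧ q.2 ∉ S ∧ G.Adj q.1 q.2}.ncard : ℕ) : ℝ) ≤ m / 2 + K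

/-- FLD (easy-medium). PROOF. `F = GaloisField 3 n` with `n = 2 k + 1` odd, `σ` = the `(k+1)`-st power of the
Frobenius (`iterateFrobeniusEquiv` or a power of `frobeniusEquiv F 3`): `σ (σ x) = x ^ (3 ^ (2 k + 2)) =
(x ^ q) ^ 3 = x ^ 3`; `3 ^ n % 4 = 3` for odd `n`. -/
def FldStmt : Prop :=
  ∀ n : ℕ, Odd n → ∃ (F : Type) (_ : Field F) (_ : Fintype F) (_ : CharP F 3) (σ : F ≃+* F),
    Fintype.card F = 3 ^ n ∧ (∀ x, σ (σ x) = x ^ 3) ∧ Fintype.card F % 4 = 3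

/-- DEL (medium-strong, uses RND CUT EMP CNT; `G` is a graph with `NoEven`). PROOF. `n = card V`,
`w t` = number of `v ∈ CycT 7 G` whose set of edges `{s(v i, v (i+1))}` is `t` (7 elements), plus, in the
second part, the number of `v ∈ CycT 9 G` with edge set `t` (9 elements). RND gives `A`; `H` = the edges of `G`
in `A`. The number of `v ∈ CycT 7 H` is at most `3 n D ^ 2 / K ^ 7`. Delete from `H` all edges `s(v 0, v 1)`,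
`v ∈ CycT 7 H`: `H'` has no 7-cycle, and for `x = ± 1` the ordered sum changes by at most `2 * 3 n D ^ 2 / K ^ 7`.
So `Short 9 H'` (EMP for the other lengths; a cycle of `H'` is a cycle of `G`), the sum for `H'` is at least
`-L / K - 6 n sqrt (D / K) - 6 n D ^ 2 / K ^ 7 ≥ -B`, CUT gives the cuts, `2 e` = ordered pairs of `H'`
(even), `2 e ≤ 3 n D / K`, and `x = 1` gives `2 e ≥ P / K - 6 n sqrt (D / K) - 6 n D ^ 2 / K ^ 7`, `P` = the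
number of ordered adjacent pairs of `G`. Second part: the same with the 7-cycles and the 9-cycles
(`3 n (D ^ 2 / K ^ 7 + D ^ 4 / K ^ 9)` of both together), `Short 11`. -/
def DelStmt : Prop :=
  ∀ (V : Type) [Fintype V] [DecidableEq V] [Nonempty V] (G : SimpleGraph V) [DecidableRel G.Adj]
    (K D : ℕ) (L R : ℝ), 1 ≤ K → K ≤ D → NoEven G → (∀ v, G.degree v ≤ D) →
    (∀ x : V → ℝ, (∀ v, x v = 1 ∨ x v = -1) →
      -L ≤ ∑ u, ∑ v, (if G.Adj u v then x u * x v else 0)) →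
    R = 6 * Fintype.card V * Real.sqrt ((D : ℝ) / K) →
    (∃ e : ℕ, (∑ u, ∑ v, (if G.Adj u v then (1 : ℝ) else 0)) / K - R -
        6 * Fintype.card V * (D : ℝ) ^ 2 / (K : ℝ) ^ 7 ≤ 2 * (e : ℝ) ∧
      2 * (e : ℝ) ≤ 3 * (Fintype.card V * D / K) ∧
      GoodG 9 e ((L / K + R + 6 * Fintype.card V * (D : ℝ) ^ 2 / (K : ℝ) ^ 7) / 4)) ∧
    (∃ e : ℕ, (∑ u, ∑ v, (if G.Adj u v then (1 : ℝ) else 0)) / K - R -
        6 * Fintype.card V * ((D : ℝ) ^ 2 / (K : ℝ) ^ 7 + (D : ℝ) ^ 4 / (K : ℝ) ^ 9) ≤ 2 * (e : ℝ) ∧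
      2 * (e : ℝ) ≤ 3 * (Fintype.card V * D / K) ∧
      GoodG 11 e ((L / K + R +
        6 * Fintype.card V * ((D : ℝ) ^ 2 / (K : ℝ) ^ 7 + (D : ℝ) ^ 4 / (K : ℝ) ^ 9)) / 4))

/-- GRQ (medium, uses LOW EVN FLD DEL). PROOF. `Q = 3 ^ s`, `s` odd, `q = Q ^ 13`, `K = Q ^ 3` (first part), `q = Q ^ 17`,
`K = Q ^ 7` (second part), `G = gr9 σ`, `n = q ^ 5`, `D = q`. Every `u` has exactly `q` vertices `v` with
`Inc σ u v` (one for every first coordinate), one of them may be `u`: degrees `≤ q`, ordered pairs between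
`n (q - 1)` and `n q`. The sum for `G` is the sum of LOW minus the loops: at least `-(4 sqrt q + 1) n ≥
-5 sqrt q n =: -L`. `sqrt (q / K) = Q ^ 5`, `L / K ≤ 5 n Q ^ 5`, `R = 6 n Q ^ 5`. First part: `n = Q ^ 65`,
`q ^ 2 / K ^ 7 = Q ^ 5`: `2 e ≥ Q ^ 62 (Q ^ 13 - 1) - 12 Q ^ 70 ≥ Q ^ 75 - 13 Q ^ 70`,
`2 e ≤ 3 Q ^ 75`, `GoodG 9 e (17 Q ^ 70 / 4)`. Second part: `n = Q ^ 85`, `q ^ 2 / K ^ 7 ≤ 1 ≤ Q ^ 5`,
`q ^ 4 / K ^ 9 = Q ^ 5`: `2 e ≥ Q ^ 95 - 19 Q ^ 90`, `GoodG 11 e (23 Q ^ 90 / 4)`. -/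
def GrqStmt : Prop :=
  ∀ s : ℕ, Odd s →
    (∃ e : ℕ, ((3 : ℝ) ^ s) ^ 75 - 13 * ((3 : ℝ) ^ s) ^ 70 ≤ 2 * (e : ℝ) ∧
      2 * (e : ℝ) ≤ 3 * ((3 : ℝ) ^ s) ^ 75 ∧ GoodG 9 e (6 * ((3 : ℝ) ^ s) ^ 70)) ∧
    (∃ e : ℕ, ((3 : ℝ) ^ s) ^ 95 - 19 * ((3 : ℝ) ^ s) ^ 90 ≤ 2 * (e : ℝ) ∧
      2 * (e : ℝ) ≤ 3 * ((3 : ℝ) ^ s) ^ 95 ∧ GoodG 11 e (6 * ((3 : ℝ) ^ s) ^ 90))

/-- PAR (medium, uses GRQ ALM; compare `all_m8` in Helper98_G8/All.lean). PROOF. `a = 75` or `95`, `b = a - 5`.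
Given `m` large, `s` the largest odd number with `3 Q ^ a ≤ 2 m`, `Q = 3 ^ s`: `e ≤ m`, and
`2 m < 3 (9 Q) ^ a` gives `e ≥ Q ^ a / 4 ≥ m / (6 * 9 ^ a)` (`Q ≥ 27` makes `13 Q ^ b`, `19 Q ^ b` at most
`Q ^ a / 2`). `6 Q ^ b = 6 (Q ^ a) ^ (b / a) ≤ 6 m ^ (b / a)`, `70 / 75 = 14 / 15`, `90 / 95 = 18 / 19`. -/
def ParStmt : Prop :=
  (∃ c : ℝ, 0 < c ∧ ∀ m : ℕ, GoodG 9 m (c * (m : ℝ) ^ ((14 : ℝ) / 15))) ∧
  (∃ c : ℝ, 0 < c ∧ ∀ m : ℕ, GoodG 11 m (c * (m : ℝ) ^ ((18 : ℝ) / 19)))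

end Pool.Agent.G9
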